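import Pool.Agent.Q294.R210.Stm

/-! # rule 210, JOB J1: one step, four cells -/

set_option autoImplicit false

namespace Pool.Agent.Q225.R210

open MeasureTheory ProbabilityTheory Finset
open Pool.Agent.Q294.R210

theorem int_bern (a : ℝ) (h0 : 0 < a) (h1 : a < 1) (h : Bool → ℝ) :
    ∫ y, h y ∂(bern a) = a * h true + (1 - a) * h false := by
  have e : max 0 (min a 1) = a := by rw [min_eq_left h1.le, max_eq_right h0.le]
  unfold bern
  rw [integral_add_measure (Integrable.of_finite.smul_measure ENNReal.ofReal_ne_top)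
    (Integrable.of_finite.smul_measure ENNReal.ofReal_ne_top), integral_smul_measure,
    integral_smul_measure, integral_dirac, integral_dirac, e, ENNReal.toReal_ofReal h0.le,
    ENNReal.toReal_ofReal (by linarith), smul_eq_mul, smul_eq_mul]

theorem prod_formula {ι : Type} [Fintype ι] [DecidableEq ι] (μ : Measure Bool) [IsProbabilityMeasure μ]
    (s : Fin 4 → ι) (hs : Function.Injective s) (h : Fin 4 → Bool → ℝ) :
    ∫ c : ι → Bool, ∏ k, h k (c (s k)) ∂(Measure.pi fun _ => μ) = ∏ k, ∫ y, h k y ∂μ := by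
  have e1 : (fun c : ι → Bool => ∏ k, h k (c (s k))) =
      fun c => ∏ j, ∏ k, (if s k = j then h k (c j) else 1) := by
    funext c
    rw [prod_comm]
    apply prod_congr rfl
    intro k _
    rw [prod_ite_eq]
    simp
  rw [e1, integral_fintype_prod_eq_prod (fun (j : ι) (y : Bool) => ∏ k, (if s k = j then h k y else 1))]
  have e2 : ∀ j ∉ univ.image s, ∫ y, ∏ k, (if s k = j then h k y else 1) ∂μ = 1 := by
    intro j hj
    have : (fun y => ∏ k, (if s k = j then h k y else 1)) = fun _ => (1 : ℝ) := by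
      funext y
      apply prod_eq_one
      intro k _
      rw [if_neg]
      rintro rfl
      exact hj (mem_image_of_mem s (mem_univ k))
    rw [this, integral_const, smul_eq_mul, mul_one, probReal_univ]
  rw [← prod_subset (subset_univ (univ.image s)) (fun j _ hj => e2 j hj), prod_image (fun a _ b _ hab => hs hab)]
  apply prod_congr rfl
  intro k _
  congr 1
  funext y
  rw [prod_eq_single k]
  · rw [if_pos rfl]
  · intro b _ hb
    rw [if_neg]
    exact fun hh => hb (hs hh)
  · intro hk
    exact absurd (mem_univ k) hk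

theorem four : S_four := by
  intro a h0 h1 n hn x g i
  have : NeZero n := ⟨by omega⟩
  have hinj : Function.Injective (fun k : Fin 4 => i + (k : ℕ)) := by
    intro k l hkl
    have h2 : ((k : ℕ) : ZMod n) = ((l : ℕ) : ZMod n) := add_left_cancel hkl
    rw [ZMod.natCast_eq_natCast_iff'] at h2
    rw [Nat.mod_eq_of_lt (by omega), Nat.mod_eq_of_lt (by omega)] at h2
    exact Fin.ext h2
  have hmu : mu a n = Measure.pi fun _ => bern a := by
    unfold mu
    rw [Measure.infinitePi_eq_pi]
  -- the four factors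
  let H : (Fin 4 → Bool) → Fin 4 → Bool → ℝ := fun b k y =>
    if (if y then f210 (x (i + (k : ℕ) - 1)) (x (i + (k : ℕ))) (x (i + (k : ℕ) + 1)) else x (i + (k : ℕ))) = b k
    then 1 else 0
  have key : ∀ b : Fin 4 → Bool, ∫ c, ∏ k, H b k (c (i + (k : ℕ))) ∂(mu a n) =
      ∏ k : Fin 4, q a (x (i + (k : ℕ) - 1)) (x (i + (k : ℕ))) (x (i + (k : ℕ) + 1)) (b k) := by
    intro b
    rw [hmu, prod_formula (bern a) (fun k : Fin 4 => i + (k : ℕ)) hinj (H b)]
    apply prod_congr rfl
    intro k _
    rw [int_bern a h0 h1]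
    simp only [H, q, if_true, Bool.false_eq_true, if_false]
  have a0 : i + (((0 : Fin 4) : ℕ) : ZMod n) = i := by simp
  have a1 : i + (((1 : Fin 4) : ℕ) : ZMod n) = i + 1 := by simp
  have a2 : i + (((2 : Fin 4) : ℕ) : ZMod n) = i + 2 := by simp
  have a3 : i + (((3 : Fin 4) : ℕ) : ZMod n) = i + 3 := by simp
  have expand : ∀ c : ZMod n → Bool,
      g (step x c i) (step x c (i + 1)) (step x c (i + 2)) (step x c (i + 3)) =
        ∑ b0 : Bool, ∑ b1 : Bool, ∑ b2 : Bool, ∑ b3 : Bool,
          (∏ k, H ![b0, b1, b2, b3] k (c (i + (k : ℕ)))) * g b0 b1 b2 b3 := by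
    intro c
    have hH : ∀ b0 b1 b2 b3 : Bool, (∏ k, H ![b0, b1, b2, b3] k (c (i + (k : ℕ)))) =
        (if step x c i = b0 then 1 else 0) * (if step x c (i + 1) = b1 then 1 else 0) *
        (if step x c (i + 2) = b2 then 1 else 0) * (if step x c (i + 3) = b3 then 1 else 0) := by
      intro b0 b1 b2 b3
      have hs : ∀ k : Fin 4, H ![b0, b1, b2, b3] k (c (i + (k : ℕ))) =
        if step x c (i + (k : ℕ)) = ![b0, b1, b2, b3] k then 1 else 0 := fun k => rfl
      simp only [hs]
      rw [Fin.prod_univ_four, a0, a1, a2, a3]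
      rfl
    simp only [hH]
    generalize step x c i = s0
    generalize step x c (i + 1) = s1
    generalize step x c (i + 2) = s2
    generalize step x c (i + 3) = s3
    cases s0 <;> cases s1 <;> cases s2 <;> cases s3 <;> simp
  simp only [expand]
  have hI : ∀ F : (ZMod n → Bool) → ℝ, Integrable F (mu a n) := fun F => Integrable.of_finite
  unfold E4
  rw [integral_finsetSum _ (fun b _ => hI _)]
  apply sum_congr rfl
  intro b0 _
  rw [integral_finsetSum _ (fun b _ => hI _)]
  apply sum_congr rfl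
  intro b1 _
  rw [integral_finsetSum _ (fun b _ => hI _)]
  apply sum_congr rfl
  intro b2 _
  rw [integral_finsetSum _ (fun b _ => hI _)]
  apply sum_congr rfl
  intro b3 _
  rw [integral_mul_const, key, Fin.prod_univ_four]
  rw [a0, a1, a2, a3]
  have c1 : i + 1 - 1 = i := by ring
  have c2 : i + 2 - 1 = i + 1 := by ring
  have c3 : i + 3 - 1 = i + 2 := by ring
  have d1 : i + 1 + 1 = i + 2 := by ring
  have d2 : i + 2 + 1 = i + 3 := by ring
  have d3 : i + 3 + 1 = i + 4 := by ring
  rw [c1, c2, c3, d1, d2, d3]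
  rfl

end Pool.Agent.Q225.R210
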